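import Mathlib

/-!
# Counting sequences which are walks on a path

Helper file for the disproof of the norm version of the noncommutative AM-GM inequality.
-/

set_option autoImplicit false

namespace Pool.Agent.W269.RR

open Finset

/-- Gram matrix of the vectors `e_x + e_{x+1}`: `2` on the diagonal, `1` for neighbours, else `0` -/
def gg {n : ℕ} (x y : Fin n) : ℕ :=
  if x = y then 2 else if (x : ℕ) + 1 = y ∨ (y : ℕ) + 1 = x then 1 else 0

/-- the weight of the sequence `j` with respect to the order `π` -/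
def cw {n k : ℕ} (π : Equiv.Perm (Fin n)) (j : Fin (k + 1) → Fin n) : ℕ :=
  ∏ t : Fin k, gg (π (j t.castSucc)) (π (j t.succ))

/-- the largest weight -/
def wt {n k : ℕ} (j : Fin (k + 1) → Fin n) : ℕ :=
  univ.sup fun π : Equiv.Perm (Fin n) => cw π j

/-- partial sums of the steps `±1` (at the indices in `S`) and `0` -/
def ps {k : ℕ} (S : Finset (Fin k)) (δ : Fin k → Bool) : ℕ → ℤ
  | 0 => 0
  | t + 1 => ps S δ t + if h : t < k then
      (if (⟨t, h⟩ : Fin k) ∈ S then (if δ ⟨t, h⟩ then 1 else -1) else 0) else 0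

theorem card_pattern {k n : ℕ} (P : Fin (k + 1) → ℤ) :
    (univ.filter fun j : Fin (k + 1) → Fin n => ∀ s t, j s = j t ↔ P s = P t).card ≤
      n.descFactorial (univ.image P).card := by
  classical
  have hR : ∀ x : {x // x ∈ univ.image P}, ∃ t, P t = x.1 := by
    intro x
    have := x.2
    rw [mem_image] at this
    obtain ⟨t, _, ht⟩ := this
    exact ⟨t, ht⟩
  choose R hR' using hR
  haveI : Fintype ({x // x ∈ univ.image P} ↪ Fin n) := Function.Embedding.fintype
  have h1 : Fintype.card ({x // x ∈ univ.image P} ↪ Fin n) =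
      n.descFactorial (univ.image P).card := by
    rw [Fintype.card_congr (Equiv.refl _), Fintype.card_embedding_eq, Fintype.card_fin,
      Fintype.card_coe]
  rw [← h1, ← Fintype.card_coe]
  refine Fintype.card_le_of_injective
    (fun j : {j // j ∈ univ.filter fun j : Fin (k + 1) → Fin n => ∀ s t, j s = j t ↔ P s = P t} =>
      (⟨fun x => j.1 (R x), ?_⟩ : {x // x ∈ univ.image P} ↪ Fin n)) ?_
  · intro x y hxy
    have hj := (mem_filter.1 j.2).2
    have h2 := (hj (R x) (R y)).1 hxy
    rw [hR', hR'] at h2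
    exact Subtype.ext h2
  · intro j j' h
    apply Subtype.ext
    funext t
    have hj := (mem_filter.1 j.2).2
    have hj' := (mem_filter.1 j'.2).2
    have h3 : P t = P (R ⟨P t, mem_image_of_mem P (mem_univ t)⟩) := (hR' ⟨P t, _⟩).symm
    rw [(hj _ _).2 h3, (hj' _ _).2 h3]
    have h4 := congrArg (fun e : {x // x ∈ univ.image P} ↪ Fin n =>
      e ⟨P t, mem_image_of_mem P (mem_univ t)⟩) h
    exact h4

theorem image_card_le {k : ℕ} (S : Finset (Fin k)) (δ : Fin k → Bool) :
    (univ.image fun t : Fin (k + 1) => ps S δ t).card ≤ S.card + 1 := by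
  classical
  have h1 : (univ.image fun t : Fin (k + 1) => ps S δ t) ⊆
      insert 0 (S.image fun r : Fin k => ps S δ (r + 1)) := by
    have h2 : ∀ t : ℕ, t < k + 1 → ps S δ t ∈
        insert (0 : ℤ) (S.image fun r : Fin k => ps S δ ((r : ℕ) + 1)) := by
      intro t
      induction t with
      | zero => intro _; exact mem_insert_self _ _
      | succ t ih =>
        intro ht
        have ht' : t < k := by omega
        by_cases hS : (⟨t, ht'⟩ : Fin k) ∈ S
        · apply mem_insert_of_mem
          rw [mem_image]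
          exact ⟨⟨t, ht'⟩, hS, rfl⟩
        · have h3 : ps S δ (t + 1) = ps S δ t := by
            rw [ps, dif_pos ht', if_neg hS, add_zero]
          rw [h3]
          exact ih (by omega)
    intro x hx
    rw [mem_image] at hx
    obtain ⟨t, _, rfl⟩ := hx
    exact h2 t t.2
  calc _ ≤ (insert (0 : ℤ) (S.image fun r : Fin k => ps S δ ((r : ℕ) + 1))).card := card_le_card h1
    _ ≤ (S.image fun r : Fin k => ps S δ ((r : ℕ) + 1)).card + 1 := card_insert_le _ _
    _ ≤ S.card + 1 := by
      have := card_image_le (s := S) (f := fun r : Fin k => ps S δ ((r : ℕ) + 1))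
      omega

theorem descFactorial_mono {n a b : ℕ} (hab : a ≤ b) (hb : b ≤ n) :
    n.descFactorial a ≤ n.descFactorial b := by
  induction b, hab using Nat.le_induction with
  | base => exact le_rfl
  | succ b hab ih =>
    have h1 := ih (by omega)
    rw [Nat.descFactorial_succ]
    have h2 : 1 ≤ n - b := by omega
    calc _ ≤ 1 * n.descFactorial b := by rw [one_mul]; exact h1
      _ ≤ _ := Nat.mul_le_mul_right _ h2

theorem gg_ne_zero {n : ℕ} {x y : Fin n} (h : gg x y ≠ 0) :
    x = y ∨ (x : ℕ) + 1 = y ∨ (y : ℕ) + 1 = x := by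
  unfold gg at h
  split_ifs at h with h1 h2
  · exact Or.inl h1
  · exact Or.inr h2
  · exact absurd rfl h

theorem gg_le {n : ℕ} (x y : Fin n) : gg x y ≤ if x = y then 2 else 1 := by
  unfold gg
  split_ifs <;> omega

/-- the moves of a sequence -/
def mv {n k : ℕ} (j : Fin (k + 1) → Fin n) : Finset (Fin k) :=
  univ.filter fun t => j t.castSucc ≠ j t.succ

theorem cw_le {n k : ℕ} (π : Equiv.Perm (Fin n)) (j : Fin (k + 1) → Fin n) :
    cw π j ≤ 2 ^ (mv j)ᶜ.card := by
  unfold cw
  have h1 : ∀ t : Fin k, gg (π (j t.castSucc)) (π (j t.succ)) ≤ if t ∈ (mv j)ᶜ then 2 else 1 := by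
    intro t
    refine (gg_le _ _).trans ?_
    by_cases h : j t.castSucc = j t.succ
    · rw [if_pos (by rw [h]), if_pos (by simp [mv, h])]
    · rw [if_neg (by simpa using h)]
      split_ifs <;> omega
  calc _ ≤ ∏ t : Fin k, (if t ∈ (mv j)ᶜ then 2 else 1) := prod_le_prod' fun t _ => h1 t
    _ = 2 ^ (mv j)ᶜ.card := by
      rw [prod_ite_mem, univ_inter, prod_const]

/-- positions along a walk -/
theorem pos_eq {n k : ℕ} {π : Equiv.Perm (Fin n)} {j : Fin (k + 1) → Fin n} (h : cw π j ≠ 0)
    (δ : Fin k → Bool) (hδ : ∀ t ∈ mv j, δ t = decide (π (j t.castSucc) < π (j t.succ)))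
    (t : ℕ) (ht : t < k + 1) :
    (((π (j ⟨t, ht⟩) : Fin n) : ℕ) : ℤ) = ((π (j 0) : Fin n) : ℕ) + ps (mv j) δ t := by
  induction t with
  | zero =>
    rw [ps, add_zero]
    rfl
  | succ t ih =>
    have ht' : t < k := by omega
    have h1 := ih (by omega)
    rw [ps, dif_pos ht', ← add_assoc, ← h1]
    have h2 : gg (π (j (⟨t, ht'⟩ : Fin k).castSucc)) (π (j (⟨t, ht'⟩ : Fin k).succ)) ≠ 0 := by
      unfold cw at h
      exact (prod_ne_zero_iff.1 h) ⟨t, ht'⟩ (mem_univ _)
    have h3 := gg_ne_zero h2
    have e1 : (⟨t, ht'⟩ : Fin k).castSucc = ⟨t, by omega⟩ := rfl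
    have e2 : (⟨t, ht'⟩ : Fin k).succ = ⟨t + 1, ht⟩ := rfl
    rw [e1, e2] at h3
    by_cases hm : (⟨t, ht'⟩ : Fin k) ∈ mv j
    · rw [if_pos hm]
      have h4 := hδ _ hm
      rw [e1, e2] at h4
      have h5 : j ⟨t, by omega⟩ ≠ j ⟨t + 1, ht⟩ := (mem_filter.1 hm).2
      rcases h3 with h3 | h3 | h3
      · exact absurd (π.injective h3) h5
      · have h6 : π (j ⟨t, by omega⟩) < π (j ⟨t + 1, ht⟩) := by
          rw [Fin.lt_def]; omega
        rw [h4, if_pos (by simpa using h6)]
        omega
      · have h6 : ¬ π (j ⟨t, by omega⟩) < π (j ⟨t + 1, ht⟩) := by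
          rw [Fin.lt_def]; omega
        rw [h4, if_neg (by simpa using h6)]
        omega
    · rw [if_neg hm]
      have h5 : j ⟨t, by omega⟩ = j ⟨t + 1, ht⟩ := by
        by_contra hne
        exact hm (mem_filter.2 ⟨mem_univ _, hne⟩)
      rw [h5, add_zero]

theorem sum_wt_le (n k : ℕ) (hk : k + 1 ≤ n) :
    ∑ j : Fin (k + 1) → Fin n, wt j ≤
      2 ^ k * ∑ i ∈ range (k + 1), k.choose i * n.descFactorial (i + 1) := by
  classical
  -- choose the order attaining the maximum
  have hπ : ∀ j : Fin (k + 1) → Fin n, ∃ π : Equiv.Perm (Fin n), wt j = cw π j := by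
    intro j
    obtain ⟨π, _, h⟩ := exists_mem_eq_sup (univ : Finset (Equiv.Perm (Fin n)))
      ⟨1, mem_univ _⟩ (fun π => cw π j)
    exact ⟨π, h⟩
  choose p hp using hπ
  set dj : (Fin (k + 1) → Fin n) → Fin k → Bool := fun j t =>
    decide (p j (j t.castSucc) < p j (j t.succ)) with hdj
  -- weight as number of sign patterns
  have h1 : ∀ j : Fin (k + 1) → Fin n, wt j ≤
      if wt j ≠ 0 then (univ.filter fun δ : Fin k → Bool => ∀ t ∈ mv j, δ t = dj j t).card else 0 := by
    intro j
    by_cases h0 : wt j = 0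
    · rw [if_neg (by simpa using h0), h0]
    rw [if_pos h0]
    calc wt j = cw (p j) j := hp j
      _ ≤ 2 ^ (mv j)ᶜ.card := cw_le _ _
      _ = Fintype.card ({t // t ∈ (mv j)ᶜ} → Bool) := by
        rw [Fintype.card_fun, Fintype.card_bool, Fintype.card_coe]
      _ ≤ _ := by
        rw [← Fintype.card_coe]
        refine Fintype.card_le_of_injective (fun f : {t // t ∈ (mv j)ᶜ} → Bool =>
          (⟨fun t => if h : t ∈ (mv j)ᶜ then f ⟨t, h⟩ else dj j t, ?_⟩ :
            {δ // δ ∈ univ.filter fun δ : Fin k → Bool => ∀ t ∈ mv j, δ t = dj j t})) ?_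
        · rw [mem_filter]
          refine ⟨mem_univ _, fun t ht => ?_⟩
          have h3 : ¬ t ∈ (mv j)ᶜ := by simpa using ht
          show (if h : t ∈ (mv j)ᶜ then f ⟨t, h⟩ else dj j t) = dj j t
          rw [dif_neg h3]
        · intro f g hfg
          funext t
          have h2 := congrArg (fun x : {δ // δ ∈ univ.filter fun δ : Fin k → Bool =>
            ∀ t ∈ mv j, δ t = dj j t} => x.1 t.1) hfg
          simpa [t.2, mem_compl.1 t.2] using h2
  -- fibres
  have h2 : ∀ (δ : Fin k → Bool) (S : Finset (Fin k)),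
      (univ.filter fun j : Fin (k + 1) → Fin n => mv j = S ∧ (wt j ≠ 0 ∧ ∀ t ∈ mv j, δ t = dj j t)).card ≤
        n.descFactorial (S.card + 1) := by
    intro δ S
    calc _ ≤ (univ.filter fun j : Fin (k + 1) → Fin n =>
          ∀ s t, j s = j t ↔ (fun t : Fin (k + 1) => ps S δ t) s =
            (fun t : Fin (k + 1) => ps S δ t) t).card := by
          apply card_le_card
          intro j hj
          rw [mem_filter] at hj ⊢
          obtain ⟨_, hS, h0, hd⟩ := hj
          refine ⟨mem_univ _, fun s t => ?_⟩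
          have h0' : cw (p j) j ≠ 0 := by rw [← hp j]; exact h0
          have hs := pos_eq h0' δ hd s s.2
          have ht := pos_eq h0' δ hd t t.2
          rw [hS] at hs ht
          show j s = j t ↔ ps S δ s = ps S δ t
          have es : (⟨(s : ℕ), s.2⟩ : Fin (k + 1)) = s := rfl
          have et : (⟨(t : ℕ), t.2⟩ : Fin (k + 1)) = t := rfl
          rw [es] at hs
          rw [et] at ht
          constructor
          · intro h
            rw [h] at hs
            omega
          · intro h
            apply (p j).injective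
            apply Fin.ext
            omega
      _ ≤ n.descFactorial (univ.image fun t : Fin (k + 1) => ps S δ t).card := card_pattern _
      _ ≤ _ := by
        refine descFactorial_mono (image_card_le S δ) ?_
        have := S.card_le_univ
        rw [Fintype.card_fin] at this
        omega
  calc ∑ j : Fin (k + 1) → Fin n, wt j
      ≤ ∑ j : Fin (k + 1) → Fin n, (if wt j ≠ 0 then
          (univ.filter fun δ : Fin k → Bool => ∀ t ∈ mv j, δ t = dj j t).card else 0) :=
        sum_le_sum fun j _ => h1 j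
    _ = ∑ j : Fin (k + 1) → Fin n, ∑ δ : Fin k → Bool,
          (if (wt j ≠ 0 ∧ ∀ t ∈ mv j, δ t = dj j t) then 1 else 0) := by
        refine sum_congr rfl fun j _ => ?_
        by_cases h0 : wt j = 0
        · simp [h0]
        · rw [if_pos h0, card_filter]
          refine sum_congr rfl fun δ _ => ?_
          simp [h0]
    _ = ∑ δ : Fin k → Bool, ∑ j : Fin (k + 1) → Fin n,
          (if (wt j ≠ 0 ∧ ∀ t ∈ mv j, δ t = dj j t) then 1 else 0) := sum_comm
    _ ≤ ∑ δ : Fin k → Bool, ∑ S : Finset (Fin k), n.descFactorial (S.card + 1) := by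
        refine sum_le_sum fun δ _ => ?_
        rw [← card_filter, card_eq_sum_card_fiberwise (f := mv) (t := univ)
          (fun j _ => mem_univ _)]
        refine sum_le_sum fun S _ => ?_
        refine le_trans (le_of_eq ?_) (h2 δ S)
        congr 1
        ext j
        simp only [mem_filter, mem_univ, true_and]
        tauto
    _ = 2 ^ k * ∑ i ∈ range (k + 1), k.choose i * n.descFactorial (i + 1) := by
        rw [sum_const, card_univ, Fintype.card_fun, Fintype.card_bool, Fintype.card_fin,
          smul_eq_mul]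
        congr 1
        rw [← powerset_univ, sum_powerset_apply_card (f := fun i => n.descFactorial (i + 1)),
          card_univ, Fintype.card_fin]
        simp only [smul_eq_mul]

end Pool.Agent.W269.RR
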