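import Mathlib

/-!
# Products of sums of rank one operators over orthogonal blocks

Helper file for the disproof of the norm version of the noncommutative AM-GM inequality.
-/

set_option autoImplicit false

namespace Pool.Agent.W269.RR

open Finset InnerProductSpace

variable {P : Type} [Fintype P] [DecidableEq P] {J : Type} {E : Type} [NormedAddCommGroup E]
  [InnerProductSpace ℂ E]

/-- the sum of the rank one operators of the vectors `w π j` -/
noncomputable def TT (w : P → J → E) (j : J) : E →L[ℂ] E := ∑ π, rankOne ℂ (w π j) (w π j)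

/-- last element -/
def lst : J → List J → J
  | a, [] => a
  | _, b :: l => lst b l

/-- product of the Gram entries along a list -/
def cl (G : P → J → J → ℕ) (π : P) : J → List J → ℕ
  | _, [] => 1
  | a, b :: l => G π a b * cl G π b l

/-- vectors in orthogonal blocks with natural Gram entries and squared norm `2` -/
structure Blk (w : P → J → E) (G : P → J → J → ℕ) : Prop where
  orth : ∀ π π', π ≠ π' → ∀ a b, inner ℂ (w π a) (w π' b) = 0
  gram : ∀ π a b, inner ℂ (w π a) (w π b) = (G π a b : ℂ)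
  diag : ∀ π a, G π a a = 2

variable {w : P → J → E} {G : P → J → J → ℕ}

theorem prod_eq (h : Blk w G) (l : List J) : ∀ a : J,
    ((a :: l).map (TT w)).prod = ∑ π, (cl G π a l : ℂ) • rankOne ℂ (w π a) (w π (lst a l)) := by
  induction l with
  | nil =>
    intro a
    simp [TT, cl, lst]
  | cons b l ih =>
    intro a
    rw [List.map_cons, List.prod_cons, ih b]
    ext x
    simp only [TT, ContinuousLinearMap.mul_apply, ContinuousLinearMap.sum_apply,
      ContinuousLinearMap.smul_apply, rankOne_apply, inner_sum, inner_smul_right, sum_smul, cl,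
      lst]
    refine sum_congr rfl fun π _ => ?_
    rw [sum_eq_single π]
    · rw [h.gram, smul_smul]
      congr 1
      push_cast
      ring
    · intro π' _ hne
      rw [h.orth π π' (Ne.symm hne)]
      simp
    · intro hn
      exact absurd (mem_univ _) hn

theorem norm_sq_two (h : Blk w G) (π : P) (a : J) : ‖w π a‖ ^ 2 = 2 := by
  have h1 := h.gram π a a
  rw [h.diag, inner_self_eq_norm_sq_to_K] at h1
  apply Complex.ofReal_injective
  rw [Complex.ofReal_pow]
  refine Eq.trans h1 ?_
  norm_num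

theorem norm_le (h : Blk w G) (a : J) (l : List J) (M : ℕ) (hM : ∀ π, cl G π a l ≤ M) :
    ‖((a :: l).map (TT w)).prod‖ ≤ 2 * M := by
  rw [prod_eq h]
  refine ContinuousLinearMap.opNorm_le_bound _ (by positivity) fun x => ?_
  set b := lst a l with hb
  -- orthonormal family
  have hs2 : (0 : ℝ) < Real.sqrt 2 := Real.sqrt_pos.2 two_pos
  have hon : Orthonormal ℂ (fun π : P => ((Real.sqrt 2 : ℝ) : ℂ)⁻¹ • w π b) := by
    constructor
    · intro π
      have h1 : ‖w π b‖ = Real.sqrt 2 := by
        rw [← norm_sq_two h π b, Real.sqrt_sq (norm_nonneg _)]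
      rw [norm_smul, norm_inv, Complex.norm_real, Real.norm_of_nonneg hs2.le, h1,
        inv_mul_cancel₀ hs2.ne']
    · intro π π' hne
      simp only
      rw [inner_smul_left, inner_smul_right, h.orth π π' hne]
      simp
  have hB := hon.sum_inner_products_le (s := univ) x
  have hB2 : ∑ π, ‖inner ℂ (w π b) x‖ ^ 2 ≤ 2 * ‖x‖ ^ 2 := by
    have h1 : ∀ π : P, ‖inner ℂ (((Real.sqrt 2 : ℝ) : ℂ)⁻¹ • w π b) x‖ ^ 2 =
        2⁻¹ * ‖inner ℂ (w π b) x‖ ^ 2 := by
      intro π
      rw [inner_smul_left, norm_mul, mul_pow]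
      congr 1
      rw [RCLike.norm_conj, norm_inv, Complex.norm_real, Real.norm_of_nonneg hs2.le, inv_pow,
        Real.sq_sqrt two_pos.le]
    simp only [h1] at hB
    rw [← mul_sum] at hB
    linarith
  -- the norm of the image
  have h2 : ‖(∑ π, (cl G π a l : ℂ) • rankOne ℂ (w π a) (w π b)) x‖ ^ 2 =
      ∑ π, ((cl G π a l : ℝ) * ‖inner ℂ (w π b) x‖) ^ 2 * 2 := by
    have e1 : (∑ π, (cl G π a l : ℂ) • rankOne ℂ (w π a) (w π b)) x =
        ∑ π, ((cl G π a l : ℂ) * inner ℂ (w π b) x) • w π a := by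
      simp only [ContinuousLinearMap.sum_apply, ContinuousLinearMap.smul_apply, rankOne_apply,
        smul_smul]
    rw [e1]
    have e2 : ∀ c : P → ℂ, ‖∑ π, c π • w π a‖ ^ 2 = ∑ π, ‖c π‖ ^ 2 * 2 := by
      intro c
      have e3 : (inner ℂ (∑ π, c π • w π a) (∑ π, c π • w π a) : ℂ) =
          ((∑ π, ‖c π‖ ^ 2 * 2 : ℝ) : ℂ) := by
        rw [sum_inner]
        push_cast
        refine sum_congr rfl fun π _ => ?_
        rw [inner_sum, sum_eq_single π]
        · rw [inner_smul_left, inner_smul_right, h.gram, h.diag, ← mul_assoc, RCLike.conj_mul]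
          push_cast
          rfl
        · intro π' _ hne
          rw [inner_smul_left, inner_smul_right, h.orth π π' (Ne.symm hne)]
          simp
        · intro hn
          exact absurd (mem_univ _) hn
      rw [inner_self_eq_norm_sq_to_K] at e3
      apply Complex.ofReal_injective
      rw [Complex.ofReal_pow]
      exact e3
    rw [e2]
    refine sum_congr rfl fun π _ => ?_
    rw [norm_mul, Complex.norm_natCast]
  have h3 : ‖(∑ π, (cl G π a l : ℂ) • rankOne ℂ (w π a) (w π b)) x‖ ^ 2 ≤
      (2 * M * ‖x‖) ^ 2 := by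
    rw [h2]
    calc _ ≤ ∑ π, (M : ℝ) ^ 2 * 2 * ‖inner ℂ (w π b) x‖ ^ 2 := by
          refine sum_le_sum fun π _ => ?_
          have h4 : (cl G π a l : ℝ) ≤ M := by exact_mod_cast hM π
          have h5 : ((cl G π a l : ℝ)) ^ 2 ≤ (M : ℝ) ^ 2 :=
            pow_le_pow_left₀ (Nat.cast_nonneg _) h4 2
          rw [mul_pow]
          have h6 : 0 ≤ ‖(inner ℂ (w π b) x : ℂ)‖ ^ 2 := by positivity
          nlinarith
      _ = (M : ℝ) ^ 2 * 2 * ∑ π, ‖inner ℂ (w π b) x‖ ^ 2 := by rw [mul_sum]
      _ ≤ (M : ℝ) ^ 2 * 2 * (2 * ‖x‖ ^ 2) := by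
          refine mul_le_mul_of_nonneg_left hB2 (by positivity)
      _ = _ := by ring
  exact le_of_sq_le_sq h3 (by positivity)

theorem le_norm (h : Blk w G) (a : J) (l : List J) (π : P) :
    2 * (cl G π a l : ℝ) ≤ ‖((a :: l).map (TT w)).prod‖ := by
  rw [prod_eq h]
  set b := lst a l with hb
  have e1 : (∑ π', (cl G π' a l : ℂ) • rankOne ℂ (w π' a) (w π' b)) (w π b) =
      ((cl G π a l : ℂ) * 2) • w π a := by
    simp only [ContinuousLinearMap.sum_apply, ContinuousLinearMap.smul_apply, rankOne_apply,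
      smul_smul]
    rw [sum_eq_single π]
    · rw [h.gram, h.diag]
      norm_num
    · intro π' _ hne
      rw [h.orth π' π hne]
      simp
    · intro hn
      exact absurd (mem_univ _) hn
  have h1 := (∑ π', (cl G π' a l : ℂ) • rankOne ℂ (w π' a) (w π' b)).le_opNorm (w π b)
  rw [e1, norm_smul, norm_mul, Complex.norm_natCast] at h1
  have h2 : ‖w π a‖ = ‖w π b‖ := by
    rw [← Real.sqrt_sq (norm_nonneg (w π a)), ← Real.sqrt_sq (norm_nonneg (w π b)),
      norm_sq_two h, norm_sq_two h]
  have h3 : 0 < ‖w π b‖ := by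
    have := norm_sq_two h π b
    by_contra hn
    have h4 : ‖w π b‖ = 0 := le_antisymm (not_lt.1 hn) (norm_nonneg _)
    rw [h4] at this
    norm_num at this
  rw [h2] at h1
  have h4 : ‖(2 : ℂ)‖ = 2 := by norm_num
  rw [h4] at h1
  have h5 := le_of_mul_le_mul_right h1 h3
  linarith

end Pool.Agent.W269.RR
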